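import Pool.Agent.Helper26.LU.Goals

/-!
# Project LU (MP_db6300_gt): packet AC1 (a coefficient enters linearly)
-/

set_option autoImplicit false

namespace Pool.Agent.Helper56.LU

open Pool.Agent.Helper26.LU Polynomial Finset

theorem inner_dvd (N w : ℕ) (a a' : ℕ → ℂ) (h2 : 2 ≤ w) (hN : w ≤ N) (h : ∀ l < w, a l = a' l)
    (y τ τ' : ℂ[X]) (hy : (X : ℂ[X]) ∣ y) (hτ' : (X : ℂ[X]) ^ 2 ∣ τ')
    (hd : (X : ℂ[X]) ^ (w + 1) ∣ τ - τ') :
    (X : ℂ[X]) ^ (w + 1) ∣ (∑ l ∈ Icc 2 N, C (a l) * (y + τ) ^ l) -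
      (∑ l ∈ Icc 2 N, C (a' l) * (y + τ') ^ l) - C (a w - a' w) * y ^ w := by
  have e : C (a w - a' w) * y ^ w =
      ∑ l ∈ Icc 2 N, if l = w then C (a w - a' w) * y ^ w else 0 := by
    rw [sum_ite_eq' (Icc 2 N) w, if_pos (mem_Icc.2 ⟨h2, hN⟩)]
  rw [e, ← sum_sub_distrib, ← sum_sub_distrib]
  refine dvd_sum fun l _ => ?_
  have hX : (X : ℂ[X]) ∣ y + τ' := dvd_add hy ((dvd_pow_self X (by norm_num)).trans hτ')
  have e1 : C (a l) * (y + τ) ^ l - C (a' l) * (y + τ') ^ l =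
      C (a l) * ((y + τ) ^ l - (y + τ') ^ l) + C (a l - a' l) * (y + τ') ^ l := by
    rw [C_sub]; ring
  rw [e1, add_sub_assoc]
  refine dvd_add ?_ ?_
  · refine Dvd.dvd.mul_left (hd.trans ?_) _
    have := sub_dvd_pow_sub_pow (y + τ) (y + τ') l
    rwa [add_sub_add_left_eq_sub] at this
  · rcases lt_trichotomy l w with hl | hl | hl
    · rw [if_neg (by omega), h l hl]
      simp
    · subst hl
      rw [if_pos rfl, ← mul_sub]
      refine Dvd.dvd.mul_left ?_ _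
      obtain ⟨u, hu⟩ := hy
      obtain ⟨v, hv⟩ := hτ'
      have e2 : (y + τ') ^ l - y ^ l = X ^ l * ((u + X * v) ^ l - u ^ l) := by
        rw [hu, hv, mul_sub, ← mul_pow, ← mul_pow]
        congr 2
        ring
      rw [e2, pow_succ]
      refine mul_dvd_mul_left _ ?_
      have := sub_dvd_pow_sub_pow (u + X * v) u l
      rw [add_sub_cancel_left] at this
      exact (dvd_mul_right _ _).trans this
    · rw [if_neg (by omega), sub_zero]
      refine Dvd.dvd.mul_left ?_ _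
      exact (pow_dvd_pow X hl).trans (pow_dvd_pow_of_dvd hX l)

theorem inner_sq (N : ℕ) (a : ℕ → ℂ) (y τ : ℂ[X]) (hy : (X : ℂ[X]) ∣ y)
    (hτ : (X : ℂ[X]) ^ 2 ∣ τ) :
    (X : ℂ[X]) ^ 2 ∣ ∑ l ∈ Icc 2 N, C (a l) * (y + τ) ^ l := by
  refine dvd_sum fun l hl => Dvd.dvd.mul_left ?_ _
  have hX : (X : ℂ[X]) ∣ y + τ := dvd_add hy ((dvd_pow_self X (by norm_num)).trans hτ)
  exact (pow_dvd_pow_of_dvd hX 2).trans (pow_dvd_pow _ (mem_Icc.1 hl).1)

theorem tau_sq (N : ℕ) (a : ℕ → ℂ) (y : Fin 4 → ℂ[X]) (hy : ∀ j, (X : ℂ[X]) ∣ y j) (k : ℕ) :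
    (X : ℂ[X]) ^ 2 ∣ tauI N (fun l => C (a l)) y k := by
  induction k with
  | zero => exact dvd_zero _
  | succ k ih =>
    unfold tauI
    refine Dvd.dvd.mul_left (dvd_sum fun j _ => Dvd.dvd.mul_right ?_ _) _
    exact inner_sq N a (y j) _ (hy j) ih

theorem tau_diff (N w : ℕ) (a a' : ℕ → ℂ) (h2 : 2 ≤ w) (hN : w ≤ N) (h : ∀ l < w, a l = a' l)
    (y : Fin 4 → ℂ[X]) (hy : ∀ j, (X : ℂ[X]) ∣ y j) (k : ℕ) :
    (X : ℂ[X]) ^ (w + 1) ∣
      tauI N (fun l => C (a l)) y k - tauI N (fun l => C (a' l)) y k := by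
  induction k with
  | zero =>
    unfold tauI
    rw [sub_zero]
    exact dvd_zero _
  | succ k ih =>
    unfold tauI
    rw [← mul_sub, ← sum_sub_distrib]
    refine Dvd.dvd.mul_left (dvd_sum fun j _ => ?_) _
    rw [← sub_mul, pow_succ]
    refine mul_dvd_mul ?_ (hy j)
    have h1 := inner_dvd N w a a' h2 hN h (y j) _ _ (hy j) (tau_sq N a' y hy k) ih
    have h3 : (X : ℂ[X]) ^ w ∣ C (a w - a' w) * y j ^ w :=
      Dvd.dvd.mul_left (pow_dvd_pow_of_dvd (hy j) w) _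
    have h4 := dvd_add ((pow_dvd_pow (X : ℂ[X]) (Nat.le_succ w)).trans h1) h3
    rwa [sub_add_cancel] at h4

theorem gAC1 : G_AC1 := by
  intro M N w a a' z h2 hN h
  have hy : ∀ j, (X : ℂ[X]) ∣ C (z j) * X := fun j => dvd_mul_left _ _
  have hτ := tau_diff N w a a' h2 hN h (fun j => C (z j) * X) hy M
  have hs := tau_sq N a (fun j => C (z j) * X) hy M
  have hs' := tau_sq N a' (fun j => C (z j) * X) hy M
  set P : Fin 4 → ℂ[X] := fun j => phN M N (fun l => C (a l)) (fun j => C (z j) * X) j with hP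
  set P' : Fin 4 → ℂ[X] := fun j => phN M N (fun l => C (a' l)) (fun j => C (z j) * X) j with hP'
  have k1 : ∀ j, (X : ℂ[X]) ^ (w + 1) ∣ P j - P' j - C (a w - a' w) * (C (z j) * X) ^ w :=
    fun j => inner_dvd N w a a' h2 hN h (C (z j) * X) _ _ (hy j) hs' hτ
  have k2 : ∀ j, (X : ℂ[X]) ^ 2 ∣ P j := fun j => inner_sq N a _ _ (hy j) hs
  have k2' : ∀ j, (X : ℂ[X]) ^ 2 ∣ P' j := fun j => inner_sq N a' _ _ (hy j) hs'
  have k3 : ∀ j, (X : ℂ[X]) ^ w ∣ P j - P' j := fun j => by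
    have h3 : (X : ℂ[X]) ^ w ∣ C (a w - a' w) * (C (z j) * X) ^ w :=
      Dvd.dvd.mul_left (pow_dvd_pow_of_dvd (hy j) w) _
    have h4 := dvd_add ((pow_dvd_pow (X : ℂ[X]) (Nat.le_succ w)).trans (k1 j)) h3
    rwa [sub_add_cancel] at h4
  have e : NlX M N a z - NlX M N a' z = ∑ j, (P j - P' j) -
      algebraMap ℝ ℂ[X] (3 / 16) * (4 * ∑ j, (P j - P' j) * (P j + P' j) -
        (∑ j, (P j - P' j)) * (∑ j, P j + ∑ j, P' j)) := by
    unfold NlX Nl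
    have e1 : ∑ j, (P j - P' j) * (P j + P' j) = ∑ j, P j ^ 2 - ∑ j, P' j ^ 2 := by
      rw [← sum_sub_distrib]
      exact sum_congr rfl fun j _ => by ring
    rw [e1, sum_sub_distrib]
    ring
  have k4 : (X : ℂ[X]) ^ (w + 1) ∣ (NlX M N a z - NlX M N a' z) -
      ∑ j, C (a w - a' w) * (C (z j) * X) ^ w := by
    rw [e, sub_right_comm, ← sum_sub_distrib]
    have hw : (X : ℂ[X]) ^ (w + 1) ∣ X ^ w * X ^ 2 := by
      rw [← pow_add]; exact pow_dvd_pow _ (by omega)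
    refine dvd_sub (dvd_sum fun j _ => k1 j) (Dvd.dvd.mul_left (dvd_sub ?_ ?_) _)
    · exact Dvd.dvd.mul_left (dvd_sum fun j _ =>
        hw.trans (mul_dvd_mul (k3 j) (dvd_add (k2 j) (k2' j)))) _
    · exact hw.trans (mul_dvd_mul (dvd_sum fun j _ => k3 j)
        (dvd_add (dvd_sum fun j _ => k2 j) (dvd_sum fun j _ => k2' j)))
  have k5 := (X_pow_dvd_iff.1 k4) w (Nat.lt_succ_self w)
  rw [coeff_sub, coeff_sub, finsetSum_coeff] at k5
  have k6 : ∀ j, (C (a w - a' w) * (C (z j) * X) ^ w).coeff w = (a w - a' w) * z j ^ w := by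
    intro j
    rw [mul_pow, ← C_pow, ← mul_assoc, ← C_mul, coeff_C_mul, coeff_X_pow, if_pos rfl, mul_one]
  simp only [k6] at k5
  rw [mul_sum]
  exact sub_eq_zero.1 k5

end Pool.Agent.Helper56.LU
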