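import Pool.Agent.Helper26.LU.Goals

/-!
# Project LU (MP_db6300_gt): packet E1 (truncation)
-/

set_option autoImplicit false

namespace Pool.Agent.Helper56.LU

open Pool.Agent.Helper26.LU Matrix Finset

/-- The sum of the absolute values of the coefficients of degree `d`. -/
noncomputable def cf (d : ℕ) (Q : MvPolynomial (Fin 3 × Fin 3) ℝ) : ℝ :=
  ∑ m ∈ (univ : Finset (Fin 3 × Fin 3)).finsuppAntidiag d, |MvPolynomial.coeff m Q|

theorem cf_nonneg (d : ℕ) (Q : MvPolynomial (Fin 3 × Fin 3) ℝ) : 0 ≤ cf d Q :=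
  sum_nonneg fun _ _ => abs_nonneg _

theorem evM_le_cf (d : ℕ) (Q : MvPolynomial (Fin 3 × Fin 3) ℝ) (hQ : Q.IsHomogeneous d)
    {R : M3} (hR : R ∈ SO3) : |evM Q R| ≤ cf d Q := by
  unfold evM cf
  rw [MvPolynomial.eval_eq]
  refine (abs_sum_le_sum_abs _ _).trans ?_
  have h1 : ∀ m ∈ Q.support, |MvPolynomial.coeff m Q * ∏ i ∈ m.support, R i.1 i.2 ^ m i| ≤
      |MvPolynomial.coeff m Q| := by
    intro m _
    rw [abs_mul]
    refine mul_le_of_le_one_right (abs_nonneg _) ?_
    rw [abs_prod]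
    refine prod_le_one (fun i _ => abs_nonneg _) fun i _ => ?_
    rw [abs_pow]
    exact pow_le_one₀ (abs_nonneg _) (SO3_entry_le hR i.1 i.2)
  refine (sum_le_sum h1).trans (sum_le_sum_of_subset_of_nonneg ?_ fun _ _ _ => abs_nonneg _)
  intro m hm
  rw [mem_finsuppAntidiag]
  refine ⟨?_, subset_univ _⟩
  have h2 := hQ (MvPolynomial.mem_support_iff.1 hm)
  rw [← h2]
  simp [Finsupp.weight_apply, Finsupp.sum_fintype]

theorem gE1 (hE0 : G_E0) : G_E1 := by
  intro N M C
  obtain ⟨D, Γ, h1, -, h3, h4, -⟩ := hE0 N M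
  have hc : Continuous fun b : Idx N → ℝ => ∑ d ∈ range (D + 1), cf d (Γ d b) := by
    refine continuous_finsetSum _ fun d _ => ?_
    unfold cf
    exact continuous_finsetSum _ fun m _ => (h3 d m).abs
  have hK : IsCompact (Set.pi Set.univ fun _ : Idx N => Set.Icc (-C) C) :=
    isCompact_univ_pi fun _ => isCompact_Icc
  obtain ⟨B, hB⟩ := hK.exists_bound_of_continuousOn hc.continuousOn
  refine ⟨|B| + 1, by positivity, fun s a hs0 hs1 ha => ?_⟩
  have hle : ∀ α : Idx N, dg α ≤ wt α := fun α => le_max_right _ _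
  set b : Idx N → ℝ := fun α => s ^ (wt α - dg α) * a α with hb
  have hbK : b ∈ Set.pi Set.univ fun _ : Idx N => Set.Icc (-C) C := by
    intro α _
    rw [Set.mem_Icc, ← abs_le]
    refine le_trans ?_ (ha α)
    rw [hb]
    simp only
    rw [abs_mul, abs_of_nonneg (pow_nonneg hs0 _)]
    exact mul_le_of_le_one_left (abs_nonneg _) (pow_le_one₀ hs0 hs1)
  have hsb : (fun α : Idx N => s ^ wt α * a α) = fun α => s ^ dg α * b α := by
    funext α
    rw [hb]
    simp only
    rw [← mul_assoc, ← pow_add, Nat.add_sub_cancel' (hle α)]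
  refine ⟨∑ d ∈ (range (D + 1)).filter (fun d => d ≤ N), (s ^ d) • Γ d b, ?_, fun R hR => ?_⟩
  · refine MvPolynomial.totalDegree_finsetSum_le fun d hd => ?_
    exact (MvPolynomial.totalDegree_smul_le _ _).trans
      ((h1 d b).totalDegree_le.trans (mem_filter.1 hd).2)
  · have e1 : evM (∑ d ∈ (range (D + 1)).filter (fun d => d ≤ N), (s ^ d) • Γ d b) R =
        ∑ d ∈ (range (D + 1)).filter (fun d => d ≤ N), s ^ d * evM (Γ d b) R := by
      unfold evM
      rw [map_sum]
      refine sum_congr rfl fun d _ => ?_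
      rw [MvPolynomial.smul_eval]
    rw [hsb, h4, e1, ← sum_filter_add_sum_filter_not (range (D + 1)) (fun d => d ≤ N),
      add_sub_cancel_left]
    have h5 : ∑ d ∈ (range (D + 1)).filter (fun d => ¬ d ≤ N), |s ^ d * evM (Γ d b) R| ≤
        ∑ d ∈ (range (D + 1)).filter (fun d => ¬ d ≤ N), s ^ (N + 1) * cf d (Γ d b) := by
      refine sum_le_sum fun d hd => ?_
      rw [abs_mul, abs_of_nonneg (pow_nonneg hs0 _)]
      have h6 : N + 1 ≤ d := by
        have := (mem_filter.1 hd).2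
        omega
      exact mul_le_mul (pow_le_pow_of_le_one hs0 hs1 h6) (evM_le_cf d _ (h1 d b) hR)
        (abs_nonneg _) (pow_nonneg hs0 _)
    refine (abs_sum_le_sum_abs _ _).trans (h5.trans ?_)
    rw [← mul_sum, mul_comm]
    refine mul_le_mul_of_nonneg_right ?_ (pow_nonneg hs0 _)
    have h7 : ∑ d ∈ (range (D + 1)).filter (fun d => ¬ d ≤ N), cf d (Γ d b) ≤
        ∑ d ∈ range (D + 1), cf d (Γ d b) :=
      sum_le_sum_of_subset_of_nonneg (filter_subset _ _) fun _ _ _ => cf_nonneg _ _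
    have h8 := hB b hbK
    rw [Real.norm_eq_abs] at h8
    have h9 := le_abs_self (∑ d ∈ range (D + 1), cf d (Γ d b))
    have h10 := le_abs_self B
    linarith

end Pool.Agent.Helper56.LU
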